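import Pool.Agent.Helper92.LV.Stmts
import Pool.Agent.Helper42.LK.KMTa

/-! MP_9a3c31_nt, module KARC: local package at an infinite place of a number field. -/

open Filter Topology NumberField

namespace Pool.Agent.Helper92.LV

open Pool.Agent.Helper42.LS Pool.Agent.Helper42.LK Pool.Agent.Helper54.LS

theorem st_KARC (hCX : ST_CX2) : ST_KARC := by
  obtain ⟨C₀, hC₀, h⟩ := hCX
  refine ⟨C₀, hC₀, ?_⟩
  intro K _ _ w A B hD x y hg
  have hg' := kmt_map w.embedding hg
  have hn : ∀ z : K, ‖w.embedding z‖ = w z := fun z => by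
    rw [InfinitePlace.norm_embedding_eq]
  have hD' : dsc (w.embedding A) (w.embedding B) ≠ 0 := by
    rw [kmt_map_dsc]; exact (map_ne_zero _).2 hD
  obtain ⟨U, f, τ, h1, ⟨C, h2⟩, hQ, h3⟩ := h (w.embedding A) (w.embedding B) hD' _ _ hg'
  refine ⟨U, f, τ, ?_, ⟨C, ?_⟩, hQ, ?_⟩
  · intro k hk
    have := h1 k hk
    rw [kmt_map_cu, hn] at this
    exact this
  · intro k hk
    have := h2 k hk
    rw [hn] at this
    exact this
  · intro k hk
    have := h3 k hk
    have e1 : (6912 * w.embedding A ^ 3 / dsc (w.embedding A) (w.embedding B)) =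
        w.embedding (6912 * A ^ 3 / dsc A B) := by
      rw [kmt_map_dsc]; simp [map_ofNat]
    rw [e1, kmt_map_dsc, hn, hn] at this
    exact this

end Pool.Agent.Helper92.LV
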