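import Pool.Agent.Helper92.LV.Stmts2

/-! MP_9a3c31_nt, module PSTR: a finite family in an abelian group, modulo torsion. -/

open Filter Topology NumberField

namespace Pool.Agent.Helper92.LV

/-- an element of the torsion submodule is killed by a positive integer -/
theorem pstr_tors {M : Type} [AddCommGroup M] {x : M} (h : x ∈ Submodule.torsion ℤ M) :
    ∃ n : ℕ, 0 < n ∧ n • x = 0 := by
  obtain ⟨a, ha⟩ := (Submodule.mem_torsion_iff x).1 h
  have ha' : (a : ℤ) • x = 0 := ha
  have hne : (a : ℤ) ≠ 0 := nonZeroDivisors.ne_zero a.2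
  refine ⟨(a : ℤ).natAbs, Int.natAbs_pos.2 hne, ?_⟩
  rcases Int.natAbs_eq (a : ℤ) with h1 | h1
  · rw [h1] at ha'
    rw [← natCast_zsmul]
    exact ha'
  · rw [h1, neg_smul, neg_eq_zero] at ha'
    rw [← natCast_zsmul]
    exact ha'

/-- an element killed by a positive integer is in the torsion submodule -/
theorem pstr_tors' {M : Type} [AddCommGroup M] {x : M} {n : ℕ} (hn : 0 < n) (h : n • x = 0) :
    x ∈ Submodule.torsion ℤ M := by
  rw [Submodule.mem_torsion_iff]
  have hn' : (n : ℤ) ≠ 0 := by exact_mod_cast hn.ne'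
  refine ⟨⟨(n : ℤ), mem_nonZeroDivisors_of_ne_zero hn'⟩, ?_⟩
  change (n : ℤ) • x = 0
  rw [natCast_zsmul]
  exact h

theorem st_PSTR : ST_PSTR := by
  intro M _ m P hP
  classical
  obtain ⟨i0, hi0⟩ := hP
  -- the classes modulo torsion
  let π : M →ₗ[ℤ] (M ⧸ Submodule.torsion ℤ M) := Submodule.mkQ _
  have hπs : Function.Surjective π := Submodule.mkQ_surjective _
  have hπ0 : ∀ x : M, π x = 0 ↔ x ∈ Submodule.torsion ℤ M := fun x => by
    simp [π, Submodule.Quotient.mk_eq_zero]
  let p : Fin m → (M ⧸ Submodule.torsion ℤ M) := fun i => π (P i)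
  let L : Submodule ℤ (M ⧸ Submodule.torsion ℤ M) := Submodule.span ℤ (Set.range p)
  have hfin : Module.Finite ℤ L := Module.Finite.span_of_finite ℤ (Set.finite_range p)
  have hfree : Module.Free ℤ L := Module.free_of_finite_type_torsion_free'
  let r : ℕ := Module.finrank ℤ L
  let b : Module.Basis (Fin r) ℤ L := Module.finBasis ℤ L
  have hpL : ∀ i, p i ∈ L := fun i => Submodule.subset_span ⟨i, rfl⟩
  let p' : Fin m → L := fun i => ⟨p i, hpL i⟩
  choose Q hQ using fun j : Fin r => hπs (b j : M ⧸ Submodule.torsion ℤ M)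
  have hsum : ∀ k : Fin r → ℤ, π (∑ j, k j • Q j) = ((∑ j, k j • b j : L) : M ⧸ Submodule.torsion ℤ M) := by
    intro k
    rw [map_sum, Submodule.coe_sum]
    refine Finset.sum_congr rfl fun j _ => ?_
    rw [map_zsmul, hQ, Submodule.coe_smul]
  have hnt : Nontrivial L := by
    refine ⟨⟨p' i0, 0, fun h => ?_⟩⟩
    have h1 : p i0 = 0 := congrArg Subtype.val h
    obtain ⟨n, hn, h2⟩ := pstr_tors ((hπ0 (P i0)).1 h1)
    exact hi0 n hn h2
  refine ⟨r, Q, Matrix.of (fun i j => b.repr (p' i) j), ?_, ?_, ?_, ?_, ?_⟩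
  · exact Module.finrank_pos
  · have := finrank_range_le_card (R := ℤ) p
    rw [Fintype.card_fin] at this
    exact this
  · intro k hk h0
    apply hk
    have h1 : ((∑ j, k j • b j : L) : M ⧸ Submodule.torsion ℤ M) = 0 := by
      rw [← hsum, h0, map_zero]
    have h2 : (∑ j, k j • b j : L) = 0 := Subtype.ext h1
    funext j
    have h3 := (Fintype.linearIndependent_iff.1 b.linearIndependent) k h2 j
    exact h3
  · intro i
    apply pstr_tors
    rw [← hπ0, map_sub, sub_eq_zero]
    simp only [Matrix.of_apply]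
    rw [hsum (fun j => b.repr (p' i) j), b.sum_repr (p' i)]
  · intro k hk h0
    apply hk
    let φ : L →ₗ[ℤ] ℤ := b.constr ℤ k
    have hφb : ∀ j, φ (b j) = k j := fun j => b.constr_basis ℤ k j
    have hφp : ∀ i, φ (p' i) = 0 := by
      intro i
      have h1 := congrFun h0 i
      have h2 : φ (p' i) = ∑ j, b.repr (p' i) j • k j := by
        simp only [φ]
        rw [Module.Basis.constr_apply_fintype]
        simp [Module.Basis.equivFun_apply]
      rw [h2]
      simpa [Matrix.mulVec, dotProduct] using h1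
    funext j
    obtain ⟨c, hc⟩ := (Submodule.mem_span_range_iff_exists_fun ℤ).1 (b j).2
    have h3 : (∑ i, c i • p' i : L) = b j := by
      apply Subtype.ext
      rw [Submodule.coe_sum]
      simpa [p'] using hc
    rw [← hφb j, ← h3, map_sum]
    simp [hφp]

end Pool.Agent.Helper92.LV
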